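import Pool.Agent.Helper98.DISC.Final

/-!
# MP_105b7b_pr, Q2: the probability that the polygon through `n` random points of the disc is convex

`q_n` for every `n ≥ 3`: a contour integral, and the finite sum of its residues (rational arithmetic only).
Paper proof: Pool/Agent/Helper98/DISC/PAPER.md.
-/

open MeasureTheory

noncomputable section

namespace Pool.Agent.Results.MP_105b7b_pr.ExactConvex

/-- The edge of the closed polygon `x 0, …, x (n-1)` which starts at `x i` (indices modulo `n`). -/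
def edge {n : ℕ} [NeZero n] (x : Fin n → ℂ) (i : Fin n) : Set ℂ := segment ℝ (x i) (x (i + 1))

/-- The polygon is simple: any two edges are disjoint, except that adjacent edges share exactly
their common end point. -/
def IsSimple {n : ℕ} [NeZero n] (x : Fin n → ℂ) : Prop :=
  (∀ i, edge x i ∩ edge x (i + 1) = {x (i + 1)}) ∧
    ∀ i j, i ≠ j → j ≠ i + 1 → i ≠ j + 1 → Disjoint (edge x i) (edge x j)

/-- The polygon is convex: it is simple, and it is the boundary of a nonempty, bounded, open, convex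
set `K` (the region enclosed by the polygon). -/
def IsConvexPolygon {n : ℕ} [NeZero n] (x : Fin n → ℂ) : Prop :=
  IsSimple x ∧ ∃ K : Set ℂ, IsOpen K ∧ K.Nonempty ∧ Bornology.IsBounded K ∧ Convex ℝ K ∧
    frontier K = ⋃ i, edge x i

/-- `q_n`: the probability that the polygon through `n` independent uniformly distributed points of
the closed unit disc is convex. -/
def q (n : ℕ) [NeZero n] : ℝ :=
  ((Measure.pi fun _ : Fin n => ProbabilityTheory.cond (volume : Measure ℂ)
    (Metric.closedBall 0 1)) {x | IsConvexPolygon x}).toReal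

/-- The partitions `λ_0 ≥ λ_1 ≥ … ≥ λ_(k-1) ≥ 0` of `k`. -/
def partitions (k : ℕ) : Finset (Fin k → Fin (k + 1)) :=
  Finset.univ.filter fun lam => Antitone lam ∧ ∑ i, (lam i : ℕ) = k

/-- `l_i = λ_i + k - 1 - i` -/
def ell {k : ℕ} (lam : Fin k → Fin (k + 1)) (i : Fin k) : ℕ := (lam i : ℕ) + (k - 1 - i)

variable (F : Type) [Field F]

/-- `d_λ = ∏_(i<j) (l_i - l_j) / ∏_i l_i!`: the inverse of the product of the hook lengths of `λ`. -/
def d {k : ℕ} (lam : Fin k → Fin (k + 1)) : F :=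
  (∏ i, ∏ j ∈ Finset.Ioi i, ((ell lam i : F) - ell lam j)) / ∏ i, ((ell lam i).factorial : F)

/-- `s_k(z) = ∑_λ d_λ² ∏_(boxes (i,j) of λ) 1/(z + j - i)`, the sum over the partitions of `k`. -/
def s (k : ℕ) (z : F) : F :=
  ∑ lam ∈ partitions k, d F lam ^ 2 * ∏ i, ∏ j ∈ Finset.range (lam i), (z + j - i)⁻¹

/-- `S(z) = ∑_k s_k(z) t^k`, a power series in `t`. -/
def S (z : F) : PowerSeries F := PowerSeries.mk fun k => s F k z

/-- `y_n(z)`: the coefficient of `t^(n-1)` in the logarithmic derivative `S'(z)/S(z)`. -/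
def y (n : ℕ) (z : F) : F :=
  PowerSeries.coeff (n - 1) (PowerSeries.derivative F (S F z) * (S F z)⁻¹)

/-- `A_(n,l)`: the sum over the integers `|m| ≤ n` of the coefficients of `X^(-l-1)` in the Laurent
series `y_n(m + X)` over the rational numbers. -/
def A (n l : ℕ) : ℚ :=
  ∑ m ∈ Finset.Icc (-(n : ℤ)) n,
    (y (LaurentSeries ℚ) n ((m : LaurentSeries ℚ) + HahnSeries.single 1 1)).coeff (-(l + 1 : ℤ))

/-- For every `n ≥ 3` the probability `q_n` is
`-2 (i/2π)^n ∮_(|z|=n) y_n(z) e^(2πiz) dz`, and this is the finite sum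
`∑_(0 ≤ j < ⌊n/2⌋) 2 (-1)^(n+1+j) A_(n,n-1-2j) / (4^j (n-1-2j)! π^(2j))`. -/
theorem result : ∀ (n : ℕ) [NeZero n], 3 ≤ n →
    (q n : ℂ) = -2 * (Complex.I / (2 * Real.pi)) ^ n *
      ∮ z in C(0, n), y ℂ n z * Complex.exp (2 * Real.pi * Complex.I * z) ∧
    q n = ∑ j ∈ Finset.range (n / 2),
      2 * (-1) ^ (n + 1 + j) / (4 ^ j * ((n - 1 - 2 * j).factorial : ℝ)) * (A n (n - 1 - 2 * j) : ℝ) /
        Real.pi ^ (2 * j) := by
  intro n _ hn
  exact ⟨Pool.Agent.Helper98.DISC.g_FINAL n hn, Pool.Agent.Helper98.DISC.g_EXPL n hn⟩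

end Pool.Agent.Results.MP_105b7b_pr.ExactConvex
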