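import Pool.Agent.Helper26.RP.Main
import Pool.Agent.Helper26.RP.Top
import Pool.Agent.Helper26.RP.Swp
import Pool.Agent.Helper26.RP.E3N
import Pool.Agent.Helper26.RP.Bin
import Pool.Agent.Helper9.RP.VIS
import Pool.Agent.Helper9.RP.FEK
import Pool.Agent.Helper58.RP.STR
import Pool.Agent.Helper18.RP.JOI
import Pool.Agent.Helper33.RP.EXI
import Pool.Agent.Helper3.RP.Crl
import Pool.Agent.Helper73.RP.ABS
import Pool.Agent.Helper73.RP.EXC
import Pool.Agent.Helper73.RP.TLM
import Pool.Agent.Helper92.RP.Cnt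
import Pool.Agent.Helper94.RP.MEA
import Pool.Agent.Helper94.RP.GLU
import Pool.Agent.Helper60.RP.OFF
import Pool.Agent.Helper60.RP.OUT
import Pool.Agent.Helper53.RP.AFF
import Pool.Agent.Helper53.RP.TRI
import Pool.Agent.Helper38.RP.OP1
import Pool.Agent.Helper99.RP.IDX
import Pool.Agent.Helper99.RP.MOD
import Pool.Agent.Helper99.RP.CLB
import Pool.Agent.Helper62.RP.TRE
import Pool.Agent.Helper62.RP.GCL
import Pool.Agent.Helper96.RP.DEG
import Pool.Agent.Helper96.RP.UUB
import Pool.Agent.Helper45.RP.MO1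
import Pool.Agent.Helper28.RP.MO2
import Pool.Agent.Helper77.RP.MO3
import Pool.Agent.Helper67.RP.OP2
import Pool.Agent.Helper5.RP.Cut
import Pool.Agent.Helper33.RP.CUB
import Pool.Agent.Helper49.RP.Thl
import Pool.Agent.Helper39.RP.ULB
import Pool.Agent.Helper5.RP.GenPos
import Pool.Agent.Helper13.RP.TRW

/-!
# MP_105b7b_pr: the growth constant of the random simple polygon

There is `γ > 1` such that `(n! p_n(K))^(1/n) → γ` for every convex body `K` of the plane, where
`p_n(K)` is the probability that the closed polygon through `n` independent uniform random points of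
`K` is simple.
-/

noncomputable section

namespace Pool.Agent.Results.MP_105b7b_pr.GrowthConstant

open Filter Topology RP

theorem result : ∃ γ : ℝ, 1 < γ ∧ ∀ K : Set (ℝ × ℝ), Convex ℝ K → IsCompact K →
    (interior K).Nonempty →
    Tendsto (fun n : ℕ => ((n.factorial : ℝ) * RP.simpleProb n K) ^ (1 / (n : ℝ))) atTop (𝓝 γ) := by
  have nul : G_NUL := PkNUL.nul
  have mea : G_MEA := PkMEA.mea
  have aff : G_AFF := PkAFF.aff
  have vis : G_VIS := PkVIS.vis PkTOP.top
  have joi : G_JOI := PkJOI.joi PkSTR.str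
  have crl : G_CRL := PkCRL.crl PkE3N.e3n
  have cnt : G_CNT := PkCNT.cnt crl PkABS.absl
  have op1 : G_OP1 := PkOP1.op1 vis mea nul
  have op2 : G_OP2 := PkOP2.op2 PkSWP.swp mea nul
  have glu : G_GLU := PkGLU.glu joi PkIDX.idx nul aff mea
  have cut : G_CUT := PkCUT.cut op1 op2 glu aff
  have exc : G_EXC := PkEXC.exc PkEXI.exi cnt mea nul
  have mode : G_MOD := PkMOD.mode
  have bin : G_BIN := PkBIN.bin mode
  have tre : G_TRE := PkTRE.tre aff
  have trw : G_TRW := PkTRW.trw cut tre aff mode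
  have tlm : G_TLM := PkTLM.tlm exc trw PkFEK.fek tre
  have gcl : G_GCL := PkGCL.gcl cut aff bin
  have deg : G_DEG := PkDEG.deg
  have clb : G_CLB := PkCLB.clb gcl deg exc
  have cub : G_CUB := PkCUB.cub gcl deg exc
  have ulb : G_ULB := PkULB.ulb clb PkTRI.trin PkTHL.thl exc tre
  have uub : G_UUB := PkUUB.uub cub PkOUT.out tre
  have mo3 : G_MO3 := PkMO3.mo3 (PkMO2.mo2 PkMO1.mo1 mea nul)
  exact RP.main (PkOFF.off nul) tlm ulb uub mo3

end Pool.Agent.Results.MP_105b7b_pr.GrowthConstant
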